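import Pool.Agent.H367R2.RP.Trans3
import Pool.Agent.H367R2.RP.Exist
import Pool.Agent.H367R2.RP.Transc

/-!
The question is answered in the negative: for every prime `p ≥ 5`, over the global function field
`K = F_p(t)` and at the place `v` given by `t = 0`, there are a projective variety `V` with Zariski
dense set of `K`-points, a dominant rational map `f : V ⇢ P^1` and a nonempty open subset `U` of `V`
such that for every effective divisor `D > 0` on `P^1` defined over `K` no sequence of `K`-points of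
`U` outside `f^* D` approaches `f^* D` with respect to `v`.

The idea: the set of the elements `z` of `K` satisfying the system `Sys` (with existential
quantifiers over `K`) is infinite, and consists, up to finitely many elements and up to addition of
constants, of truncations of the series `∑ (1/2 choose i) t ^ (p ^ i)`, which is transcendental
over `K`.
-/

open MvPolynomial

namespace Pool.Agent.Results.MP_333da9_nt.Counterexample

open Pool.Agent.H367R2.RP

variable (p : ℕ) [Fact p.Prime]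

/-- The element `t`. -/
noncomputable abbrev tt : RatFunc (ZMod p) := io p Polynomial.X

/-- The equations of the system in 15 unknowns. -/
noncomputable def eqs : Set (MvPolynomial (Fin (14 + 1)) (RatFunc (ZMod p))) :=
  {X 0 - (C (tt p) + X 1 ^ p),
   X 3 * X 4 - 1,
   X 7 ^ p - X 7 - (X 3 - C (tt p)),
   X 8 ^ p - X 8 - (X 4 - C (1 / tt p)),
   X 5 * X 6 - 1,
   X 9 ^ p - X 9 - (X 5 - C (tt p)),
   X 10 ^ p - X 10 - (X 6 - C (1 / tt p)),
   X 11 ^ p - X 11 - (X 0 ^ 2 - C (2 * tt p) * (X 3 + X 3 ^ p)),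
   X 12 ^ p - X 12 - (X 5 * X 3 - C (tt p) * X 3 ^ p ^ 2),
   X 13 ^ p - X 13 - (X 0 * X 5 ^ p - C (tt p) * X 2 ^ p),
   X 14 ^ p - X 14 - (X 0 * X 2 ^ p -
     C (tt p) * (X 5 ^ p + X 5 + C (tt p ^ p ^ 2) + C (tt p ^ p)))}

theorem sys_of_eqs {x : Fin (14 + 1) → RatFunc (ZMod p)} (h : ∀ q ∈ eqs p, aeval x q = 0) :
    Sys p (x 0) (x 1) (x 2) (x 3) (x 4) (x 5) (x 6) := by
  have hC : ∀ c : RatFunc (ZMod p), aeval x (C c) = c := by
    intro c
    simp
  simp only [eqs, Set.mem_insert_iff, Set.mem_singleton_iff, forall_eq_or_imp, forall_eq,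
    map_sub, map_add, map_mul, map_pow, aeval_X, map_one, hC] at h
  obtain ⟨h1, h2, h3, h4, h5, h6, h7, h8, h9, h10, h11⟩ := h
  refine ⟨sub_eq_zero.mp h1, sub_eq_zero.mp h2, ⟨_, sub_eq_zero.mp h3⟩, ⟨_, sub_eq_zero.mp h4⟩,
    sub_eq_zero.mp h5, ⟨_, sub_eq_zero.mp h6⟩, ⟨_, sub_eq_zero.mp h7⟩, ⟨_, sub_eq_zero.mp h8⟩,
    ⟨_, sub_eq_zero.mp h9⟩, ⟨_, sub_eq_zero.mp h10⟩, ⟨_, sub_eq_zero.mp h11⟩⟩

theorem eqs_of_sys {z g G b b' d d' : RatFunc (ZMod p)} (h : Sys p z g G b b' d d') :
    ∃ x : Fin (14 + 1) → RatFunc (ZMod p), (∀ q ∈ eqs p, aeval x q = 0) ∧ x 0 = z := by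
  obtain ⟨u3, h3⟩ := h.e3
  obtain ⟨u4, h4⟩ := h.e4
  obtain ⟨u6, h6⟩ := h.e6
  obtain ⟨u7, h7⟩ := h.e7
  obtain ⟨u8, h8⟩ := h.e8
  obtain ⟨u9, h9⟩ := h.e9
  obtain ⟨u10, h10⟩ := h.e10
  obtain ⟨u11, h11⟩ := h.e11
  refine ⟨![z, g, G, b, b', d, d', u3, u4, u6, u7, u8, u9, u10, u11], ?_, rfl⟩
  set x : Fin (14 + 1) → RatFunc (ZMod p) :=
    ![z, g, G, b, b', d, d', u3, u4, u6, u7, u8, u9, u10, u11] with hx
  have hC : ∀ c : RatFunc (ZMod p), aeval x (C c) = c := by
    intro c
    simp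
  have x0 : x 0 = z := rfl
  have x1 : x 1 = g := rfl
  have x2 : x 2 = G := rfl
  have x3 : x 3 = b := rfl
  have x4 : x 4 = b' := rfl
  have x5 : x 5 = d := rfl
  have x6 : x 6 = d' := rfl
  have x7 : x 7 = u3 := rfl
  have x8 : x 8 = u4 := rfl
  have x9 : x 9 = u6 := rfl
  have x10 : x 10 = u7 := rfl
  have x11 : x 11 = u8 := rfl
  have x12 : x 12 = u9 := rfl
  have x13 : x 13 = u10 := rfl
  have x14 : x 14 = u11 := rfl
  simp only [eqs, Set.mem_insert_iff, Set.mem_singleton_iff, forall_eq_or_imp, forall_eq,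
    map_sub, map_add, map_mul, map_pow, aeval_X, map_one, hC, x0, x1, x2, x3, x4, x5, x6, x7, x8,
    x9, x10, x11, x12, x13, x14, h3, h4, h6, h7, h8, h9, h10, h11, h.e2, h.e5, sub_self,
    and_true]
  exact sub_eq_zero.mpr h.e1

/-- **Negative answer.** For every prime `p ≥ 5`, over the global function field `K = F_p(t)` and
for the place `v` with `t = 0`, there are a projective variety `V` of positive dimension with
Zariski dense `K`-points, a dominant rational map `f` from `V` to the projective line, and a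
nonempty Zariski open subset `U` of `V` (where the homogeneous polynomial `Φ` does not vanish) such
that, for every effective divisor `D > 0` on the projective line over `K`, no sequence of `K`-points
of `U` outside `f^* D` approaches `f^* D` with respect to `v`. -/
theorem result (p : ℕ) [Fact p.Prime] (hp : 5 ≤ p) :
    ∃ (n : ℕ) (V : ProjVariety (RatFunc (ZMod p)) n) (f : RatMapP1 V)
      (Φ : MvPolynomial (Fin (n + 1)) (RatFunc (ZMod p))),
      IsCounterexample ((Polynomial.idealX (ZMod p)).valuation (RatFunc (ZMod p))) V f Φ := by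
  have hcard : 31 + 1 = 2 * (14 + 2) := by norm_num
  refine ⟨31, transfer ((finCongr hcard).trans finProdFinEquiv.symm) _ (eqs p) ?_ ?_ ?_⟩
  · refine Set.Infinite.mono ?_ (infinite_sol (p := p) hp)
    rintro z ⟨g, G, b, b', d, d', h⟩
    obtain ⟨x, hx, hx0⟩ := eqs_of_sys p h
    exact ⟨x, hx, hx0⟩
  · intro x hx
    obtain ⟨N, Z, hZ, _, _⟩ := (sys_of_eqs p hx).explicit hp
    rw [← hZ]
    exact IsDedekindDomain.HeightOneSpectrum.valuation_le_one _ _
  · intro h hne
    obtain ⟨M, hM⟩ := lower_bound (p := p) hp hne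
    refine ⟨WithZero.exp (-(M : ℤ)), WithZero.exp_ne_zero, ?_⟩
    intro x hx hev
    obtain ⟨N, Z, hZ, hdeg, hform⟩ := (sys_of_eqs p hx).explicit hp
    rw [← hZ] at hev ⊢
    exact hM N Z hdeg hform hev

end Pool.Agent.Results.MP_333da9_nt.Counterexample
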